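import Pool.Graph.R_pool_sql_team_seeded_3997aac3.Q74.FC.Count

/-! # The Collatz map on `F_2[x]`: large deviations and the pull-back inequality -/

set_option autoImplicit false

namespace Pool.Agent.H77.CT

open Polynomial Finset Pool.Agent.Q74.FC

/-- the exponential moments of the number of odd steps -/
theorem sum_pow (d : ℕ) (y : ℝ) (hy : 0 ≤ y) : ∑ f ∈ D d, y ^ odds d f ≤ (y + 1) ^ d := by
  classical
  have h1 : ∑ t ∈ (range d).powerset, y ^ t.card * 1 ^ ((range d).card - t.card) =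
      (y + 1) ^ (range d).card := Finset.sum_pow_mul_eq_add_pow y 1 (range d)
  simp only [one_pow, mul_one, card_range] at h1
  rw [← h1]
  set F : (ZMod 2)[X] → Finset ℕ := fun f => (range d).filter (fun i => par (S^[i] f) = 1) with hF
  have hinj : Set.InjOn F (D d : Set ((ZMod 2)[X])) := by
    intro f hf g hg hfg
    rw [mem_coe] at hf hg
    have h2 : ∀ i < d, par (S^[i] f) = par (S^[i] g) := by
      intro i hi
      have h3 : i ∈ F f ↔ i ∈ F g := by rw [hfg]
      simp only [hF, mem_filter, mem_range] at h3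
      have a := par_le (S^[i] f)
      have b := par_le (S^[i] g)
      by_cases h5 : par (S^[i] f) = 1
      · rw [h5, (h3.1 ⟨hi, h5⟩).2]
      · by_cases h6 : par (S^[i] g) = 1
        · exact absurd (h3.2 ⟨hi, h6⟩).2 h5
        · omega
    have h3 := par_inj h2
    have h5 : (f - g).degree < (d : WithBot ℕ) := by
      rw [mem_D] at hf hg
      have h0 : f ≠ 0 := by rintro rfl; simp at hf
      have l1 : f.leadingCoeff = 1 := by
        rcases zmod2 f.leadingCoeff with h | h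
        · exact absurd (leadingCoeff_eq_zero.1 h) h0
        · exact h
      have h0' : g ≠ 0 := by rintro rfl; simp at hg
      have l2 : g.leadingCoeff = 1 := by
        rcases zmod2 g.leadingCoeff with h | h
        · exact absurd (leadingCoeff_eq_zero.1 h) h0'
        · exact h
      have h2 := degree_sub_lt_left (p := f) (q := g) (by rw [hf, hg]) h0 (by rw [l1, l2])
      rwa [hf] at h2
    by_contra hne
    have h6 : f - g ≠ 0 := sub_ne_zero.2 hne
    have h7 := natDegree_le_of_dvd h3 h6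
    rw [natDegree_X_pow] at h7
    rw [degree_eq_natDegree h6] at h5
    have h8 : (f - g).natDegree < d := by exact_mod_cast h5
    omega
  calc ∑ f ∈ D d, y ^ odds d f = ∑ f ∈ D d, y ^ (F f).card := by
        refine sum_congr rfl fun f _ => ?_
        rw [odds_card]
    _ = ∑ t ∈ (D d).image F, y ^ t.card := by
        rw [sum_image hinj]
    _ ≤ ∑ t ∈ (range d).powerset, y ^ t.card := by
        apply sum_le_sum_of_subset_of_nonneg
        · intro t ht
          obtain ⟨f, _, rfl⟩ := mem_image.1 ht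
          rw [mem_powerset]
          exact filter_subset _ _
        · intro t _ _
          positivity

theorem mgf (t : ℝ) (d : ℕ) :
    ∑ f ∈ D d, Real.exp (t * ((odds d f : ℝ) - d / 2)) ≤ 2 ^ d * Real.exp (t ^ 2 / 8) ^ d := by
  have h1 : ∀ f : (ZMod 2)[X], Real.exp (t * ((odds d f : ℝ) - d / 2)) =
      Real.exp t ^ odds d f * Real.exp (-(t / 2)) ^ d := by
    intro f
    rw [← Real.exp_nat_mul, ← Real.exp_nat_mul, ← Real.exp_add]
    congr 1
    ring
  simp_rw [h1]
  rw [← sum_mul]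
  have h2 := sum_pow d (Real.exp t) (Real.exp_pos t).le
  refine (mul_le_mul_of_nonneg_right h2 (by positivity)).trans ?_
  rw [← mul_pow, ← mul_pow]
  apply pow_le_pow_left₀ (by positivity)
  have h3 : (Real.exp t + 1) * Real.exp (-(t / 2)) = 2 * Real.cosh (t / 2) := by
    rw [Real.cosh_eq, add_mul, one_mul, ← Real.exp_add]
    have : t + -(t / 2) = t / 2 := by ring
    rw [this]
    ring
  rw [h3]
  have h4 := Real.cosh_le_exp_half_sq (t / 2)
  have h5 : (t / 2) ^ 2 / 2 = t ^ 2 / 8 := by ring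
  rw [h5] at h4
  linarith

open Classical in
/-- polynomials of degree `d` with an atypical number of odd steps among the first `d` -/
noncomputable def Dv (δ : ℝ) (d : ℕ) : Finset ((ZMod 2)[X]) :=
  (D d).filter (fun f => δ * d ≤ |(odds d f : ℝ) - d / 2|)

theorem dv_le {δ : ℝ} (hδ : 0 ≤ δ) (d : ℕ) :
    ((Dv δ d).card : ℝ) / 2 ^ d ≤ 2 * Real.exp (-(2 * δ ^ 2)) ^ d := by
  classical
  have h1 := mgf (4 * δ) d
  have h2 := mgf (-(4 * δ)) d
  have e1 : (4 * δ) ^ 2 / 8 = 2 * δ ^ 2 := by ring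
  have e2 : (-(4 * δ)) ^ 2 / 8 = 2 * δ ^ 2 := by ring
  rw [e1] at h1
  rw [e2] at h2
  have h3 : ∑ f ∈ Dv δ d, Real.exp (4 * δ ^ 2) ^ d ≤
      ∑ f ∈ D d, (Real.exp (4 * δ * ((odds d f : ℝ) - d / 2)) +
        Real.exp (-(4 * δ) * ((odds d f : ℝ) - d / 2))) := by
    refine (sum_le_sum (g := fun f => (Real.exp (4 * δ * ((odds d f : ℝ) - d / 2)) +
        Real.exp (-(4 * δ) * ((odds d f : ℝ) - d / 2)))) fun f hf => ?_).trans
      (sum_le_sum_of_subset_of_nonneg (filter_subset _ _) fun f _ _ => by positivity)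
    unfold Dv at hf
    rw [mem_filter] at hf
    have h := hf.2
    rw [← Real.exp_nat_mul]
    rcases le_or_gt 0 ((odds d f : ℝ) - d / 2) with h0 | h0
    · rw [abs_of_nonneg h0] at h
      have : Real.exp ((d : ℝ) * (4 * δ ^ 2)) ≤ Real.exp (4 * δ * ((odds d f : ℝ) - d / 2)) := by
        apply Real.exp_le_exp.2
        have := mul_le_mul_of_nonneg_left h (by positivity : 0 ≤ 4 * δ)
        nlinarith
      have h4 := Real.exp_pos (-(4 * δ) * ((odds d f : ℝ) - d / 2))
      linarith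
    · rw [abs_of_neg h0] at h
      have : Real.exp ((d : ℝ) * (4 * δ ^ 2)) ≤ Real.exp (-(4 * δ) * ((odds d f : ℝ) - d / 2)) := by
        apply Real.exp_le_exp.2
        have := mul_le_mul_of_nonneg_left h (by positivity : 0 ≤ 4 * δ)
        nlinarith
      have h4 := Real.exp_pos (4 * δ * ((odds d f : ℝ) - d / 2))
      linarith
  rw [sum_add_distrib, sum_const, nsmul_eq_mul] at h3
  have h4 : ((Dv δ d).card : ℝ) * Real.exp (4 * δ ^ 2) ^ d ≤
      2 * (2 ^ d * Real.exp (2 * δ ^ 2) ^ d) := by linarith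
  rw [div_le_iff₀ (by positivity)]
  have h5 : Real.exp (4 * δ ^ 2) ^ d = Real.exp (2 * δ ^ 2) ^ d * Real.exp (2 * δ ^ 2) ^ d := by
    rw [← mul_pow, ← Real.exp_add]
    congr 2
    ring
  have h6 : Real.exp (-(2 * δ ^ 2)) ^ d * Real.exp (2 * δ ^ 2) ^ d = 1 := by
    rw [← mul_pow, ← Real.exp_add]
    simp
  have h7 : 0 < Real.exp (2 * δ ^ 2) ^ d := by positivity
  rw [h5] at h4
  have h8 : ((Dv δ d).card : ℝ) * Real.exp (2 * δ ^ 2) ^ d ≤ 2 * 2 ^ d := by
    have : ((Dv δ d).card : ℝ) * Real.exp (2 * δ ^ 2) ^ d * Real.exp (2 * δ ^ 2) ^ d ≤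
        2 * 2 ^ d * Real.exp (2 * δ ^ 2) ^ d := by
      calc _ = ((Dv δ d).card : ℝ) * (Real.exp (2 * δ ^ 2) ^ d * Real.exp (2 * δ ^ 2) ^ d) := by ring
        _ ≤ 2 * (2 ^ d * Real.exp (2 * δ ^ 2) ^ d) := h4
        _ = _ := by ring
    exact le_of_mul_le_mul_right this h7
  have h9 : 0 < Real.exp (-(2 * δ ^ 2)) ^ d := by positivity
  calc ((Dv δ d).card : ℝ) = ((Dv δ d).card : ℝ) * Real.exp (2 * δ ^ 2) ^ d *
        Real.exp (-(2 * δ ^ 2)) ^ d := by
        rw [mul_assoc, mul_comm (Real.exp (2 * δ ^ 2) ^ d), h6, mul_one]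
    _ ≤ 2 * 2 ^ d * Real.exp (-(2 * δ ^ 2)) ^ d := mul_le_mul_of_nonneg_right h8 h9.le
    _ = _ := by ring

/-- the pull-back inequality -/
theorem card_pull (P : ℕ → Finset ((ZMod 2)[X])) (hP : ∀ a, ∀ g ∈ P a, g ≠ 0 ∧ g.natDegree = a)
    (d : ℕ) (s : Finset ℕ) (hs : ∀ a ∈ s, a ≤ d) (A E : Finset ((ZMod 2)[X])) (hA : A ⊆ D d)
    (hcov : ∀ f ∈ A, f ∈ E ∨ ∃ a ∈ s, S^[d] f ∈ P a) :
    (A.card : ℝ) / 2 ^ d ≤ (E.card : ℝ) / 2 ^ d + ∑ a ∈ s, ((P a).card : ℝ) / 2 ^ a := by
  classical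
  have hsub : A ⊆ E ∪ s.biUnion
      (fun a => (P a).biUnion (fun g => (D d).filter (fun f => S^[d] f = g))) := by
    intro f hf
    rw [mem_union]
    rcases hcov f hf with h | ⟨a, ha, hg⟩
    · exact Or.inl h
    · right
      rw [mem_biUnion]
      refine ⟨a, ha, ?_⟩
      rw [mem_biUnion]
      refine ⟨S^[d] f, hg, ?_⟩
      rw [mem_filter]
      exact ⟨hA hf, rfl⟩
  have hc : A.card ≤ E.card + ∑ a ∈ s, (P a).card * 2 ^ (d - a) := by
    refine (card_le_card hsub).trans ((card_union_le _ _).trans (Nat.add_le_add_left ?_ _))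
    refine card_biUnion_le.trans (sum_le_sum fun a _ => ?_)
    refine card_biUnion_le.trans ?_
    rw [card_eq_sum_ones, sum_mul]
    refine sum_le_sum fun g hg => ?_
    rw [one_mul]
    obtain ⟨h0, h1⟩ := hP a g hg
    have h := fibre d d g h0
    rw [h1] at h
    convert h
  have hc' : (A.card : ℝ) ≤ E.card + ∑ a ∈ s, ((P a).card : ℝ) * 2 ^ (d - a) := by exact_mod_cast hc
  have h3 : (A.card : ℝ) / 2 ^ d ≤ (E.card : ℝ) / 2 ^ d +
      (∑ a ∈ s, ((P a).card : ℝ) * 2 ^ (d - a)) / 2 ^ d := by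
    rw [← add_div]
    exact div_le_div_of_nonneg_right hc' (by positivity)
  refine h3.trans (add_le_add le_rfl ?_)
  rw [sum_div]
  refine sum_le_sum fun a ha => ?_
  have : (2 : ℝ) ^ d = 2 ^ (d - a) * 2 ^ a := by rw [← pow_add]; congr 1; have := hs a ha; omega
  rw [this]
  have h4 : (2 : ℝ) ^ (d - a) ≠ 0 := by positivity
  apply le_of_eq
  field_simp

/-- the orbit of `1` is `1, x, 1, x, ...` -/
theorem T_iter_one (j : ℕ) : ((T^[j] 1 : (ZMod 2)[X])) = 1 ∨ (T^[j] 1 : (ZMod 2)[X]) = X := by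
  have t1 : T (1 : (ZMod 2)[X]) = X := by
    unfold T
    rw [if_pos (by simp)]
    have h2 : (1 + 1 : (ZMod 2)[X]) = 0 := by
      rw [← map_one (C : ZMod 2 →+* (ZMod 2)[X]), ← map_add]
      have : (1 + 1 : ZMod 2) = 0 := by decide
      rw [this, map_zero]
    rw [mul_one, add_assoc, h2, add_zero]
  have t2 : T (X : (ZMod 2)[X]) = 1 := by
    unfold T
    rw [if_neg (by simp)]
    have h := divX_mul_X_add (X : (ZMod 2)[X])
    rw [coeff_X_zero, map_zero, add_zero] at h
    exact mul_right_cancel₀ X_ne_zero (h.trans (one_mul X).symm)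
  induction j with
  | zero => exact Or.inl rfl
  | succ j ih =>
    rw [Function.iterate_succ_apply']
    rcases ih with h | h
    · rw [h, t1]; exact Or.inr rfl
    · rw [h, t2]; exact Or.inl rfl

theorem tm_step' {f : (ZMod 2)[X]} (hf : f ≠ 0) (n : ℕ) (h2 : 2 ≤ (S^[n] f).natDegree) :
    n + odds n f + tm (S^[n] f) ≤ tm f := by
  have h1 := tm_spec hf
  have h3 := iter_T n f
  have hk : n + odds n f ≤ tm f := by
    by_contra hlt
    rw [not_le] at hlt
    obtain ⟨j, hj⟩ := Nat.exists_eq_add_of_lt hlt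
    have h4 : T^[(j + 1) + tm f] f = S^[n] f := by
      rw [← h3]
      congr 1
      omega
    rw [Function.iterate_add_apply, h1] at h4
    rcases T_iter_one (j + 1) with h | h
    · rw [h] at h4
      rw [← h4] at h2
      simp at h2
    · rw [h] at h4
      rw [← h4] at h2
      simp at h2
  obtain ⟨j, hj⟩ := Nat.exists_eq_add_of_le hk
  have h4 : T^[j] (S^[n] f) = 1 := by
    rw [← h3, ← Function.iterate_add_apply, ← h1]
    congr 1
    omega
  have h5 : tm (S^[n] f) ≤ j := Nat.sInf_le h4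
  omega

end Pool.Agent.H77.CT
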