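import Pool.Agent.H77.CollatzA

/-! # The Collatz map on `F_2[x]`: the stopping time is `3 d + O(√d log d)` -/

set_option autoImplicit false

namespace Pool.Agent.H77.CT2

open Polynomial Finset Filter Topology Pool.Agent.Q74.FC Pool.Agent.H77.CT

theorem mem_Dv {δ : ℝ} {d : ℕ} {f : (ZMod 2)[X]} :
    f ∈ Dv δ d ↔ (f ≠ 0 ∧ f.natDegree = d) ∧ δ * d ≤ |(odds d f : ℝ) - d / 2| := by
  classical
  unfold Dv
  rw [mem_filter, mem_D']

open Classical in
/-- polynomials of degree `d` whose stopping time is far from `3 d` -/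
noncomputable def BW (lam M : ℝ) (d : ℕ) : Finset ((ZMod 2)[X]) :=
  (D d).filter (fun f => 30 * lam * √(d : ℝ) + M < |(tm f : ℝ) - 3 * d|)

/-- their proportion -/
noncomputable def w (lam M : ℝ) (d : ℕ) : ℝ := ((BW lam M d).card : ℝ) / 2 ^ d

theorem w_nonneg (lam M : ℝ) (d : ℕ) : 0 ≤ w lam M d := by unfold w; positivity

theorem mem_BW {lam M : ℝ} {d : ℕ} {f : (ZMod 2)[X]} :
    f ∈ BW lam M d ↔ (f ≠ 0 ∧ f.natDegree = d) ∧ 30 * lam * √(d : ℝ) + M < |(tm f : ℝ) - 3 * d| := by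
  classical
  unfold BW
  rw [mem_filter, mem_D']

theorem w_rec {lam M : ℝ} (h1lam : 1 ≤ lam) {d : ℕ} (hd : 16 * lam ^ 2 ≤ d) :
    w lam M d ≤ 2 * Real.exp (-(2 * lam ^ 2)) +
      ∑ a ∈ (range d).filter (fun a => 4 * a < 3 * d), w lam M a := by
  classical
  have hd1 : (1 : ℝ) ≤ d := by nlinarith
  have hd0 : (0 : ℝ) < d := by linarith
  have hsq : √(d : ℝ) * √(d : ℝ) = d := Real.mul_self_sqrt hd0.le
  have hs0 : 0 < √(d : ℝ) := Real.sqrt_pos.2 hd0
  have hlam : 4 * lam ≤ √(d : ℝ) := by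
    rw [Real.le_sqrt (by linarith) hd0.le]
    nlinarith
  have hls : lam * √(d : ℝ) ≤ d / 4 := by nlinarith
  have hδd : lam / √(d : ℝ) * d = lam * √(d : ℝ) := by
    rw [div_mul_eq_mul_div, div_eq_iff hs0.ne', mul_assoc, hsq]
  have h := card_pull (BW lam M) (fun a g hg => (mem_BW.1 hg).1) d
    ((range d).filter (fun a => 4 * a < 3 * d)) (fun a ha => by
      rw [mem_filter, mem_range] at ha; omega) (BW lam M d) (Dv (lam / √(d : ℝ)) d)
      (filter_subset _ _) ?_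
  · refine h.trans (add_le_add ?_ le_rfl)
    have h2 := dv_le (δ := lam / √(d : ℝ)) (by positivity) d
    refine h2.trans (le_of_eq ?_)
    rw [← Real.exp_nat_mul, div_pow, Real.sq_sqrt hd0.le]
    congr 2
    field_simp
  · intro f hf
    rw [mem_BW] at hf
    obtain ⟨⟨h0, h1⟩, h2⟩ := hf
    by_cases hD : f ∈ Dv (lam / √(d : ℝ)) d
    · exact Or.inl hD
    · right
      rw [mem_Dv, not_and, not_le] at hD
      have h3 := hD ⟨h0, h1⟩
      rw [hδd] at h3
      have h4 := abs_lt.1 h3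
      obtain ⟨h5, h6⟩ := S_iter_ne h0 d
      have h7 : (S^[d] f).natDegree = odds d f := by omega
      have h9 : (4 : ℝ) * odds d f < 3 * d := by linarith [h4.2]
      have h9' : 4 * odds d f < 3 * d := by exact_mod_cast h9
      have h10 : (2 : ℝ) ≤ odds d f := by nlinarith [h4.1]
      have h10' : 2 ≤ odds d f := by exact_mod_cast h10
      have h8 := tm_step h0 d
      have h8' := tm_step' h0 d (by omega)
      have h11 : tm f = d + odds d f + tm (S^[d] f) := by omega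
      have h12 : (tm f : ℝ) = d + odds d f + tm (S^[d] f) := by exact_mod_cast h11
      refine ⟨odds d f, ?_, ?_⟩
      · rw [mem_filter, mem_range]
        constructor <;> omega
      · rw [mem_BW]
        refine ⟨⟨h5, h7⟩, ?_⟩
        have h13 : (tm f : ℝ) - 3 * d = ((tm (S^[d] f) : ℝ) - 3 * odds d f) +
            4 * ((odds d f : ℝ) - d / 2) := by rw [h12]; ring
        have h14 : |(tm f : ℝ) - 3 * d| ≤ |(tm (S^[d] f) : ℝ) - 3 * odds d f| +
            4 * |(odds d f : ℝ) - d / 2| := by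
          rw [h13]
          refine (abs_add_le _ _).trans (le_of_eq ?_)
          rw [abs_mul, abs_of_pos (show (0 : ℝ) < 4 by norm_num)]
        have h15 : 30 * √(odds d f : ℝ) ≤ 26 * √(d : ℝ) := by
          have h16 : √(odds d f : ℝ) ≤ 26 / 30 * √(d : ℝ) := by
            rw [Real.sqrt_le_left (by positivity), mul_pow, Real.sq_sqrt hd0.le]
            nlinarith
          linarith
        have h17 : 30 * lam * √(odds d f : ℝ) ≤ 26 * lam * √(d : ℝ) := by nlinarith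
        linarith

theorem w_zero {lam : ℝ} (hlam : 0 ≤ lam) {N d : ℕ} (h : d ≤ N) :
    w lam (((N + 1) * (N + 2) : ℕ) : ℝ) d = 0 := by
  classical
  unfold w
  have : BW lam (((N + 1) * (N + 2) : ℕ) : ℝ) d = ∅ := by
    rw [eq_empty_iff_forall_notMem]
    intro f hf
    rw [mem_BW] at hf
    have h1 := tm_le hf.1.1
    rw [hf.1.2] at h1
    have h2 : (d + 1) * (d + 2) ≤ (N + 1) * (N + 2) := Nat.mul_le_mul (by omega) (by omega)
    have h3 : (tm f : ℝ) ≤ (((N + 1) * (N + 2) : ℕ) : ℝ) := by exact_mod_cast h1.trans h2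
    have h4 : 0 ≤ 30 * lam * √(d : ℝ) := by positivity
    have h5 : 3 * d ≤ (d + 1) * (d + 2) := by nlinarith
    have h6 : (3 : ℝ) * d ≤ (((N + 1) * (N + 2) : ℕ) : ℝ) := by exact_mod_cast h5.trans h2
    have h7 : (0 : ℝ) ≤ tm f := Nat.cast_nonneg _
    have h8 : (0 : ℝ) ≤ 3 * d := by positivity
    have h9 : |(tm f : ℝ) - 3 * d| ≤ (((N + 1) * (N + 2) : ℕ) : ℝ) := by
      rw [abs_le]
      constructor <;> linarith
    linarith [hf.2]
  rw [this]
  simp

theorem w_stage {lam : ℝ} (h1lam : 1 ≤ lam) {N : ℕ} (hN : 16 * lam ^ 2 ≤ N) (d k : ℕ) :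
    ∀ a ≤ d, a * 3 ^ k ≤ N * 4 ^ k →
    w lam (((N + 1) * (N + 2) : ℕ) : ℝ) a ≤ 2 * Real.exp (-(2 * lam ^ 2)) * ((d : ℝ) + 1) ^ k := by
  set q : ℝ := 2 * Real.exp (-(2 * lam ^ 2)) with hq
  have hq0 : 0 < q := by positivity
  induction k with
  | zero =>
    intro a _ h
    rw [pow_zero, pow_zero, mul_one, mul_one] at h
    rw [w_zero (by linarith) h]
    positivity
  | succ k ih =>
    intro a ha h
    rcases le_or_gt a N with h1 | h1
    · rw [w_zero (by linarith) h1]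
      positivity
    · have h1' : (N : ℝ) ≤ a := by exact_mod_cast h1.le
      refine (w_rec h1lam (hN.trans h1')).trans ?_
      have h3 : ∑ b ∈ (range a).filter (fun b => 4 * b < 3 * a), w lam (((N + 1) * (N + 2) : ℕ) : ℝ) b ≤
          ∑ b ∈ (range a).filter (fun b => 4 * b < 3 * a), q * ((d : ℝ) + 1) ^ k := by
        refine sum_le_sum fun b hb => ?_
        rw [mem_filter, mem_range] at hb
        apply ih b (by omega)
        have h4 : 4 * b * 3 ^ k ≤ 3 * a * 3 ^ k := Nat.mul_le_mul_right _ hb.2.le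
        have h5 : 3 * a * 3 ^ k = a * 3 ^ (k + 1) := by ring
        have h6 : N * 4 ^ (k + 1) = 4 * (N * 4 ^ k) := by ring
        have h7 : 4 * b * 3 ^ k = 4 * (b * 3 ^ k) := by ring
        omega
      rw [sum_const, nsmul_eq_mul] at h3
      have h4 : ((((range a).filter (fun b => 4 * b < 3 * a)).card : ℕ) : ℝ) ≤ d := by
        have : ((range a).filter (fun b => 4 * b < 3 * a)).card ≤ a := by
          refine (card_filter_le _ _).trans ?_
          rw [card_range]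
        exact_mod_cast this.trans ha
      have hd0 : (0 : ℝ) ≤ d := Nat.cast_nonneg d
      have h5 : (1 : ℝ) ≤ ((d : ℝ) + 1) ^ k := one_le_pow₀ (by linarith)
      calc q + ∑ b ∈ (range a).filter (fun b => 4 * b < 3 * a), w lam (((N + 1) * (N + 2) : ℕ) : ℝ) b
          ≤ q + d * (q * ((d : ℝ) + 1) ^ k) := by
            refine add_le_add le_rfl (h3.trans (mul_le_mul_of_nonneg_right h4 (by positivity)))
        _ ≤ q * ((d : ℝ) + 1) ^ k + d * (q * ((d : ℝ) + 1) ^ k) := by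
            have := mul_le_mul_of_nonneg_left h5 hq0.le
            linarith
        _ = q * ((d : ℝ) + 1) ^ (k + 1) := by ring

/-- the number of stages -/
theorem stage_num (d N : ℕ) (hN : 1 ≤ N) :
    d * 3 ^ (3 * (Nat.log 2 d + 1)) ≤ N * 4 ^ (3 * (Nat.log 2 d + 1)) := by
  set l := Nat.log 2 d with hl
  have h2 : d < 2 ^ (l + 1) := Nat.lt_pow_succ_log_self (by norm_num) d
  have h3 : (3 : ℕ) ^ (3 * (l + 1)) = 27 ^ (l + 1) := by rw [pow_mul]; norm_num
  have h4 : (4 : ℕ) ^ (3 * (l + 1)) = 64 ^ (l + 1) := by rw [pow_mul]; norm_num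
  rw [h3, h4]
  calc d * 27 ^ (l + 1) ≤ 2 ^ (l + 1) * 27 ^ (l + 1) := Nat.mul_le_mul_right _ h2.le
    _ = 54 ^ (l + 1) := by rw [← mul_pow]; norm_num
    _ ≤ 64 ^ (l + 1) := Nat.pow_le_pow_left (by norm_num) _
    _ = 1 * 64 ^ (l + 1) := (one_mul _).symm
    _ ≤ N * 64 ^ (l + 1) := Nat.mul_le_mul_right _ hN

/-- `N = 16 B² (log₂ d + 1)²` -/
noncomputable def NN (B d : ℕ) : ℕ := 16 * (B * (Nat.log 2 d + 1)) ^ 2

/-- the additive term -/
noncomputable def MM (B d : ℕ) : ℕ := (NN B d + 1) * (NN B d + 2)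

/-- `λ = B (log₂ d + 1)` -/
noncomputable def la (B d : ℕ) : ℝ := (B : ℝ) * ((Nat.log 2 d : ℝ) + 1)

theorem two_le_exp : (2 : ℝ) ≤ Real.exp 1 := by
  have := Real.exp_one_gt_d9
  linarith

theorem w_le (A d : ℕ) : w (la (A + 2) d) (MM (A + 2) d : ℝ) d * ((d : ℝ) + 2) ^ A ≤ 1 := by
  set l := Nat.log 2 d with hl
  set B : ℕ := A + 2 with hB
  have hBr : (B : ℝ) = A + 2 := by rw [hB]; push_cast; ring
  have hA : (0 : ℝ) ≤ A := Nat.cast_nonneg A
  have hl0 : (0 : ℝ) ≤ l := Nat.cast_nonneg l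
  have hla : la B d = (B : ℝ) * ((l : ℝ) + 1) := rfl
  have h1lam : 1 ≤ la B d := by
    rw [hla, hBr]
    nlinarith
  have hN : 16 * la B d ^ 2 ≤ (NN B d : ℝ) := by
    unfold NN
    rw [hla]
    push_cast
    exact le_rfl
  have hN1 : 1 ≤ NN B d := by
    have : (1 : ℝ) ≤ NN B d := by nlinarith
    exact_mod_cast this
  have h := w_stage h1lam hN d _ d le_rfl (stage_num d (NN B d) hN1)
  have h2 : d < 2 ^ (l + 1) := Nat.lt_pow_succ_log_self (by norm_num) d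
  have h2' : (d : ℝ) + 1 ≤ 2 ^ (l + 1) := by exact_mod_cast h2
  have h3 : (2 : ℝ) ^ (l + 1) ≤ Real.exp ((l : ℝ) + 1) := by
    have : Real.exp ((l : ℝ) + 1) = Real.exp 1 ^ (l + 1) := by
      rw [← Real.exp_nat_mul]; congr 1; push_cast; ring
    rw [this]
    exact pow_le_pow_left₀ (by norm_num) two_le_exp _
  have h4 : ((d : ℝ) + 1) ^ (3 * (l + 1)) ≤ Real.exp (3 * ((l : ℝ) + 1) ^ 2) := by
    calc ((d : ℝ) + 1) ^ (3 * (l + 1)) ≤ Real.exp ((l : ℝ) + 1) ^ (3 * (l + 1)) :=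
          pow_le_pow_left₀ (by positivity) (h2'.trans h3) _
      _ = _ := by rw [← Real.exp_nat_mul]; congr 1; push_cast; ring
  have h5 : ((d : ℝ) + 2) ^ A ≤ Real.exp (2 * A * ((l : ℝ) + 1) ^ 2) := by
    have h6 : (d : ℝ) + 2 ≤ Real.exp ((l : ℝ) + 2) := by
      have e1 : Real.exp ((l : ℝ) + 2) = Real.exp ((l : ℝ) + 1) * Real.exp 1 := by
        rw [← Real.exp_add]; congr 1; ring
      have h7 : (1 : ℝ) ≤ 2 ^ (l + 1) := one_le_pow₀ (by norm_num)
      rw [e1]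
      have := two_le_exp
      have h8 := h2'.trans h3
      nlinarith
    calc ((d : ℝ) + 2) ^ A ≤ Real.exp ((l : ℝ) + 2) ^ A := pow_le_pow_left₀ (by positivity) h6 _
      _ = Real.exp (A * ((l : ℝ) + 2)) := by rw [← Real.exp_nat_mul]
      _ ≤ _ := by
        apply Real.exp_le_exp.2
        nlinarith [mul_nonneg hA hl0, mul_nonneg hA (mul_nonneg hl0 hl0)]
  have h9 : w (la B d) (MM B d : ℝ) d ≤
      2 * Real.exp (-(2 * la B d ^ 2)) * Real.exp (3 * ((l : ℝ) + 1) ^ 2) :=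
    h.trans (mul_le_mul_of_nonneg_left h4 (by positivity))
  calc w (la B d) (MM B d : ℝ) d * ((d : ℝ) + 2) ^ A
      ≤ (2 * Real.exp (-(2 * la B d ^ 2)) * Real.exp (3 * ((l : ℝ) + 1) ^ 2)) *
        Real.exp (2 * A * ((l : ℝ) + 1) ^ 2) :=
        mul_le_mul h9 h5 (by positivity) (by positivity)
    _ = 2 * Real.exp (-(2 * la B d ^ 2) + 3 * ((l : ℝ) + 1) ^ 2 + 2 * A * ((l : ℝ) + 1) ^ 2) := by
        rw [Real.exp_add, Real.exp_add]; ring
    _ ≤ 2 * Real.exp (-1) := by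
        apply mul_le_mul_of_nonneg_left _ (by norm_num)
        apply Real.exp_le_exp.2
        rw [hla, hBr]
        have h10 : (1 : ℝ) ≤ ((l : ℝ) + 1) ^ 2 := by nlinarith
        have h11 : -(2 * ((A + 2 : ℝ) * ((l : ℝ) + 1)) ^ 2) + 3 * ((l : ℝ) + 1) ^ 2 +
            2 * A * ((l : ℝ) + 1) ^ 2 = -((2 * (A + 2 : ℝ) ^ 2 - 3 - 2 * A) * ((l : ℝ) + 1) ^ 2) := by ring
        rw [h11]
        have h12 : (1 : ℝ) ≤ 2 * (A + 2 : ℝ) ^ 2 - 3 - 2 * A := by nlinarith
        nlinarith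
    _ ≤ 1 := by
        rw [Real.exp_neg]
        have := two_le_exp
        have h13 : 0 < Real.exp 1 := Real.exp_pos 1
        rw [← div_eq_mul_inv, div_le_one h13]
        exact this

/-- the average -/
noncomputable def rr (d : ℕ) : ℝ := (∑ f ∈ D d, (tm f : ℝ)) / 2 ^ d

/-- the threshold -/
noncomputable def HH (B d : ℕ) : ℝ := 30 * la B d * √(d : ℝ) + MM B d

theorem rr_near (d : ℕ) : |rr d - 3 * d| ≤ HH 4 d + 1 := by
  classical
  have h0 : rr d - 3 * d = (∑ f ∈ D d, ((tm f : ℝ) - 3 * d)) / 2 ^ d := by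
    unfold rr
    rw [sum_sub_distrib, sum_const, card_D, nsmul_eq_mul, sub_div]
    push_cast
    field_simp
  have h1 : |∑ f ∈ D d, ((tm f : ℝ) - 3 * d)| ≤ ∑ f ∈ D d, (HH 4 d +
      if HH 4 d < |(tm f : ℝ) - 3 * d| then ((d : ℝ) + 2) ^ 2 else 0) := by
    refine (abs_sum_le_sum_abs _ _).trans (sum_le_sum fun f hf => ?_)
    split_ifs with h
    · have h2 := tm_le (mem_D'.1 hf).1
      rw [(mem_D'.1 hf).2] at h2
      have h3 : (tm f : ℝ) ≤ ((d : ℝ) + 1) * (d + 2) := by exact_mod_cast h2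
      have hd0 : (0 : ℝ) ≤ d := Nat.cast_nonneg d
      have ht0 : (0 : ℝ) ≤ tm f := Nat.cast_nonneg _
      have h4 : (0 : ℝ) ≤ HH 4 d := by unfold HH la; positivity
      have h5 : |(tm f : ℝ) - 3 * d| ≤ ((d : ℝ) + 2) ^ 2 := by
        rw [abs_le]
        constructor <;> nlinarith
      linarith
    · rw [not_lt] at h
      linarith
  rw [sum_add_distrib, sum_const, card_D, nsmul_eq_mul, ← sum_filter, sum_const, nsmul_eq_mul] at h1
  have h2 : (((2 ^ d : ℕ)) : ℝ) = 2 ^ d := by push_cast; ring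
  rw [h2] at h1
  have h6 : (D d).filter (fun f => HH 4 d < |(tm f : ℝ) - 3 * d|) = BW (la 4 d) (MM 4 d : ℝ) d := by
    unfold BW HH
    congr
  rw [h6] at h1
  have h5 : (0 : ℝ) < 2 ^ d := by positivity
  rw [h0, abs_div, abs_of_pos h5, div_le_iff₀ h5]
  have h7 := w_le 2 d
  unfold w at h7
  have h8 : ((BW (la 4 d) (MM 4 d : ℝ) d).card : ℝ) * ((d : ℝ) + 2) ^ 2 ≤ 2 ^ d := by
    have := mul_le_mul_of_nonneg_right h7 h5.le
    calc ((BW (la 4 d) (MM 4 d : ℝ) d).card : ℝ) * ((d : ℝ) + 2) ^ 2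
        = ((BW (la 4 d) (MM 4 d : ℝ) d).card : ℝ) / 2 ^ d * ((d : ℝ) + 2) ^ 2 * 2 ^ d := by
          field_simp
      _ ≤ 1 * 2 ^ d := this
      _ = 2 ^ d := one_mul _
  calc |∑ f ∈ D d, ((tm f : ℝ) - 3 * d)| ≤ _ := h1
    _ ≤ 2 ^ d * HH 4 d + 2 ^ d := by linarith
    _ = _ := by ring

theorem tendsto_log : Tendsto (fun d : ℕ => Nat.log 2 d) atTop atTop := by
  refine tendsto_atTop.2 fun b => ?_
  filter_upwards [eventually_ge_atTop (2 ^ b)] with d hd
  exact Nat.le_log_of_pow_le (by norm_num) hd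

theorem HH_le (B : ℕ) : ∃ C : ℝ, 0 < C ∧ ∀ᶠ d : ℕ in atTop, HH B d + 1 ≤ C * (√(d : ℝ) * Real.log d) := by
  set G : ℝ := (16 * (B : ℝ) ^ 2 + 1) * (16 * (B : ℝ) ^ 2 + 2) + 1 with hG
  refine ⟨90 * B + 3 * G, by positivity, ?_⟩
  have h1 : ∀ᶠ l : ℕ in atTop, ((l : ℝ) + 1) ^ 6 ≤ 2 ^ l := by
    have h := (tendsto_pow_const_div_const_pow_of_one_lt 6 (show (1 : ℝ) < 2 by norm_num))
    have h' := h.comp (tendsto_add_atTop_nat 1)
    filter_upwards [h'.eventually_lt_const (show (0 : ℝ) < 1 / 2 by norm_num)] with l hl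
    simp only [Function.comp_apply] at hl
    push_cast at hl
    rw [div_lt_iff₀ (by positivity)] at hl
    have : (1 / 2 : ℝ) * 2 ^ (l + 1) = 2 ^ l := by ring
    rw [this] at hl
    exact hl.le
  filter_upwards [tendsto_log.eventually h1, eventually_ge_atTop 2] with d hd hd2
  set l := Nat.log 2 d with hl
  have hd2' : (2 : ℝ) ≤ d := by exact_mod_cast hd2
  have hd0 : (0 : ℝ) < d := by linarith
  have h2 : (2 : ℝ) ^ l ≤ d := by exact_mod_cast Nat.pow_log_le_self 2 (by omega)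
  have hlog2 := Real.log_two_gt_d9
  have h3 : (l : ℝ) * Real.log 2 ≤ Real.log d := by
    rw [← Real.log_pow]
    exact Real.log_le_log (by positivity) h2
  have h4 : Real.log 2 ≤ Real.log d := Real.log_le_log (by norm_num) hd2'
  have hl0 : (0 : ℝ) ≤ l := Nat.cast_nonneg l
  have h5 : (l : ℝ) + 1 ≤ 3 * Real.log d := by nlinarith
  have h6 : ((l : ℝ) + 1) ^ 3 ≤ √(d : ℝ) := by
    rw [Real.le_sqrt (by positivity) hd0.le, ← pow_mul]
    exact hd.trans h2
  have hs0 : 0 ≤ √(d : ℝ) := Real.sqrt_nonneg _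
  have hlg0 : 0 ≤ Real.log d := by linarith
  have h7 : 30 * la B d * √(d : ℝ) ≤ 90 * B * (√(d : ℝ) * Real.log d) := by
    have : la B d = (B : ℝ) * ((l : ℝ) + 1) := rfl
    rw [this]
    have h8 : (B : ℝ) * √(d : ℝ) * ((l : ℝ) + 1) ≤ (B : ℝ) * √(d : ℝ) * (3 * Real.log d) :=
      mul_le_mul_of_nonneg_left h5 (by positivity)
    linarith
  have h8 : (MM B d : ℝ) + 1 ≤ G * ((l : ℝ) + 1) ^ 4 := by
    have e : (MM B d : ℝ) = (16 * ((B : ℝ) * ((l : ℝ) + 1)) ^ 2 + 1) * (16 * ((B : ℝ) * ((l : ℝ) + 1)) ^ 2 + 2) := by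
      unfold MM NN
      push_cast
      rfl
    rw [e, hG]
    set x : ℝ := ((l : ℝ) + 1) ^ 2 with hx
    have hx1 : 1 ≤ x := by rw [hx]; nlinarith
    have e1 : ((B : ℝ) * ((l : ℝ) + 1)) ^ 2 = (B : ℝ) ^ 2 * x := by rw [hx]; ring
    have e2 : ((l : ℝ) + 1) ^ 4 = x * x := by rw [hx]; ring
    rw [e1, e2]
    set b : ℝ := 16 * (B : ℝ) ^ 2 with hb
    have hb0 : 0 ≤ b := by positivity
    have e3 : 16 * ((B : ℝ) ^ 2 * x) = b * x := by rw [hb]; ring
    rw [e3]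
    have a1 : b * x + 1 ≤ (b + 1) * x := by linarith
    have a2 : b * x + 2 ≤ (b + 2) * x := by linarith
    have a3 : (b * x + 1) * (b * x + 2) ≤ ((b + 1) * x) * ((b + 2) * x) :=
      mul_le_mul a1 a2 (by positivity) (by positivity)
    have a4 : 1 ≤ x * x := by nlinarith
    calc (b * x + 1) * (b * x + 2) + 1 ≤ ((b + 1) * x) * ((b + 2) * x) + x * x := add_le_add a3 a4
      _ = ((b + 1) * (b + 2) + 1) * (x * x) := by ring
  have h9 : ((l : ℝ) + 1) ^ 4 ≤ 3 * (√(d : ℝ) * Real.log d) := by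
    calc ((l : ℝ) + 1) ^ 4 = ((l : ℝ) + 1) ^ 3 * ((l : ℝ) + 1) := by ring
      _ ≤ √(d : ℝ) * (3 * Real.log d) := mul_le_mul h6 h5 (by positivity) hs0
      _ = _ := by ring
  have hG0 : 0 ≤ G := by positivity
  have h10 := mul_le_mul_of_nonneg_left h9 hG0
  unfold HH
  calc 30 * la B d * √(d : ℝ) + (MM B d : ℝ) + 1
      ≤ 90 * B * (√(d : ℝ) * Real.log d) + G * (3 * (√(d : ℝ) * Real.log d)) := by linarith
    _ = _ := by ring

open Classical in
/-- CONCENTRATION -/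
theorem conc (A : ℕ) : ∃ C : ℝ, 0 < C ∧ ∀ᶠ d : ℕ in atTop,
    ((((D d).filter (fun f => C * (√(d : ℝ) * Real.log d) ≤ |(tm f : ℝ) - 3 * d|)).card : ℝ)) / 2 ^ d ≤
      1 / (d : ℝ) ^ A := by
  obtain ⟨C, hC0, hC⟩ := HH_le (A + 2)
  refine ⟨C, hC0, ?_⟩
  filter_upwards [hC, eventually_ge_atTop 1] with d hd hd1
  have hd0 : (0 : ℝ) < d := by exact_mod_cast hd1
  have hsub : (D d).filter (fun f => C * (√(d : ℝ) * Real.log d) ≤ |(tm f : ℝ) - 3 * d|) ⊆
      BW (la (A + 2) d) (MM (A + 2) d : ℝ) d := by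
    intro f hf
    rw [mem_filter, mem_D'] at hf
    rw [mem_BW]
    refine ⟨hf.1, ?_⟩
    have h := hf.2
    unfold HH at hd
    linarith
  have h1 : ((((D d).filter (fun f => C * (√(d : ℝ) * Real.log d) ≤ |(tm f : ℝ) - 3 * d|)).card : ℝ)) ≤
      ((BW (la (A + 2) d) (MM (A + 2) d : ℝ) d).card : ℝ) := by exact_mod_cast card_le_card hsub
  have h2 := w_le A d
  rw [le_div_iff₀ (by positivity)]
  refine le_trans ?_ h2
  apply mul_le_mul
  · unfold w
    exact div_le_div_of_nonneg_right h1 (by positivity)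
  · exact pow_le_pow_left₀ hd0.le (by linarith) _
  · positivity
  · exact w_nonneg _ _ _

/-- THE AVERAGE -/
theorem average : ∃ C : ℝ, 0 < C ∧ ∀ᶠ d : ℕ in atTop, |rr d - 3 * d| ≤ C * (√(d : ℝ) * Real.log d) := by
  obtain ⟨C, hC0, hC⟩ := HH_le 4
  refine ⟨C, hC0, ?_⟩
  filter_upwards [hC] with d hd
  exact (rr_near d).trans hd

end Pool.Agent.H77.CT2
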