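import Mathlib

/-! # Phases avoiding a point (for `MP_942486_an`) -/

set_option autoImplicit false

open MeasureTheory Filter Set Real

namespace Pool.Agent.H77.Per

/-- half of the chord between `1` and `exp (2 π i x)` -/
noncomputable def D (x : ℝ) : ℝ := |sin (π * x)|

lemma D_nonneg (x : ℝ) : 0 ≤ D x := abs_nonneg _

lemma D_add (x y : ℝ) : D (x + y) ≤ D x + D y := by
  unfold D
  rw [mul_add, sin_add]
  refine (abs_add_le _ _).trans ?_
  rw [abs_mul, abs_mul]
  have h1 := abs_cos_le_one (π * y)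
  have h2 := abs_cos_le_one (π * x)
  nlinarith [abs_nonneg (sin (π * x)), abs_nonneg (sin (π * y))]

lemma D_neg (x : ℝ) : D (-x) = D x := by
  unfold D
  rw [mul_neg, sin_neg, abs_neg]

lemma D_add_nat (x : ℝ) (k : ℕ) : D (x + k) = D x := by
  unfold D
  rw [mul_add, mul_comm π (k : ℝ), sin_add_nat_mul_pi, abs_mul, abs_pow]
  simp

lemma D_cont : Continuous D := by unfold D; fun_prop

lemma dir_cos (B : ℝ) (M : ℕ) : 2 * sin B * ∑ j ∈ Finset.range M, cos (2 * j * B) =
    sin ((2 * M - 1) * B) + sin B := by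
  induction M with
  | zero =>
    simp only [Finset.range_zero, Finset.sum_empty, mul_zero, Nat.cast_zero, zero_sub]
    rw [neg_one_mul, sin_neg]
    ring
  | succ M ih =>
    rw [Finset.sum_range_succ, mul_add, ih]
    have e1 : (2 * ((M + 1 : ℕ) : ℝ) - 1) * B = 2 * M * B + B := by push_cast; ring
    have e2 : (2 * (M : ℝ) - 1) * B = 2 * M * B - B := by ring
    rw [e1, e2, sin_add, sin_sub]
    ring

lemma dir_sin (B : ℝ) (M : ℕ) : 2 * sin B * ∑ j ∈ Finset.range M, sin (2 * j * B) =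
    cos B - cos ((2 * M - 1) * B) := by
  induction M with
  | zero =>
    simp only [Finset.range_zero, Finset.sum_empty, mul_zero, Nat.cast_zero, zero_sub]
    rw [neg_one_mul, cos_neg]
    ring
  | succ M ih =>
    rw [Finset.sum_range_succ, mul_add, ih]
    have e1 : (2 * ((M + 1 : ℕ) : ℝ) - 1) * B = 2 * M * B + B := by push_cast; ring
    have e2 : (2 * (M : ℝ) - 1) * B = 2 * M * B - B := by ring
    rw [e1, e2, cos_add, cos_sub]
    ring

/-- Fejér sum -/
noncomputable def Fj (M : ℕ) (y : ℝ) : ℝ :=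
  (∑ j ∈ Finset.range M, cos (2 * j * (π * y))) ^ 2 + (∑ j ∈ Finset.range M, sin (2 * j * (π * y))) ^ 2

lemma Fj_le (M : ℕ) {y ρ : ℝ} (hρ : 0 < ρ) (hy : ρ ≤ D y) : Fj M y ≤ 1 / ρ ^ 2 := by
  set B := π * y with hB
  have h1 := dir_cos B M
  have h2 := dir_sin B M
  set A := (2 * (M : ℝ) - 1) * B with hA
  have h3 : 4 * sin B ^ 2 * Fj M y ≤ 4 := by
    have e : 4 * sin B ^ 2 * Fj M y = (2 * sin B * ∑ j ∈ Finset.range M, cos (2 * j * B)) ^ 2 +
        (2 * sin B * ∑ j ∈ Finset.range M, sin (2 * j * B)) ^ 2 := by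
      unfold Fj
      rw [← hB]
      ring
    rw [e, h1, h2]
    have h4 := cos_add A B
    have h5 := neg_one_le_cos (A + B)
    have h6 := sin_sq_add_cos_sq A
    have h7 := sin_sq_add_cos_sq B
    nlinarith
  have h4 : ρ ^ 2 ≤ sin B ^ 2 := by
    rw [← sq_abs (sin B)]
    exact pow_le_pow_left₀ hρ.le hy 2
  have h5 : 0 ≤ Fj M y := by unfold Fj; positivity
  rw [le_div_iff₀ (by positivity)]
  nlinarith

lemma Fj_eq (M : ℕ) (y : ℝ) : Fj M y = ∑ j ∈ Finset.range M, ∑ k ∈ Finset.range M,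
    cos (2 * π * ((j : ℝ) - k) * y) := by
  unfold Fj
  rw [sq, sq, Finset.sum_mul_sum, Finset.sum_mul_sum, ← Finset.sum_add_distrib]
  refine Finset.sum_congr rfl fun s _ => ?_
  rw [← Finset.sum_add_distrib]
  refine Finset.sum_congr rfl fun t _ => ?_
  rw [← cos_sub]
  congr 1
  ring

/-- if all phases avoid `0`, some Weyl sum is large -/
lemma fejer {d : ℕ} (hd : 0 < d) (y : Fin d → ℝ) {ρ : ℝ} (hρ : 0 < ρ) (M : ℕ)
    (hM : 2 / ρ ^ 2 < M) (hy : ∀ t, ρ ≤ D (y t)) :
    ∃ m : ℕ, 1 ≤ m ∧ m < M ∧ (d : ℝ) / (2 * M) ≤ |∑ t, cos (2 * π * m * y t)| := by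
  by_contra hcon
  push Not at hcon
  have hM0 : (0 : ℝ) < M := lt_of_le_of_lt (by positivity) hM
  have hd0 : (0 : ℝ) < d := by exact_mod_cast hd
  have h1 : ∑ t, Fj M (y t) ≤ d * (1 / ρ ^ 2) := by
    have := Finset.sum_le_sum (s := Finset.univ) fun t (_ : t ∈ Finset.univ) => Fj_le M hρ (hy t)
    simpa using this
  have h2 : ∑ t, Fj M (y t) = ∑ j ∈ Finset.range M, ∑ k ∈ Finset.range M,
      ∑ t, cos (2 * π * ((j : ℝ) - k) * y t) := by
    simp_rw [Fj_eq]
    rw [Finset.sum_comm]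
    refine Finset.sum_congr rfl fun j _ => ?_
    rw [Finset.sum_comm]
  have h3 : ∀ j ∈ Finset.range M, ∀ k ∈ Finset.range M,
      (if j = k then (d : ℝ) else 0) - d / (2 * M) ≤ ∑ t, cos (2 * π * ((j : ℝ) - k) * y t) := by
    intro j hj k hk
    rw [Finset.mem_range] at hj hk
    have hpos : 0 ≤ (d : ℝ) / (2 * M) := by positivity
    rcases lt_trichotomy j k with h | h | h
    · rw [if_neg (by omega)]
      obtain ⟨m, hm⟩ := Nat.exists_eq_add_of_lt h
      have h4 := hcon (m + 1) (by omega) (by omega)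
      have e : ∑ t, cos (2 * π * ((j : ℝ) - k) * y t) = ∑ t, cos (2 * π * ((m + 1 : ℕ) : ℝ) * y t) := by
        refine Finset.sum_congr rfl fun t _ => ?_
        rw [← cos_neg]
        congr 1
        rw [hm]
        push_cast
        ring
      rw [e]
      have := (abs_lt.1 h4).1
      linarith
    · rw [if_pos h, h]
      simp
      exact hpos
    · rw [if_neg (by omega)]
      obtain ⟨m, hm⟩ := Nat.exists_eq_add_of_lt h
      have h4 := hcon (m + 1) (by omega) (by omega)
      have e : ∑ t, cos (2 * π * ((j : ℝ) - k) * y t) = ∑ t, cos (2 * π * ((m + 1 : ℕ) : ℝ) * y t) := by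
        refine Finset.sum_congr rfl fun t _ => ?_
        congr 1
        rw [hm]
        push_cast
        ring
      rw [e]
      have := (abs_lt.1 h4).1
      linarith
  have h4 : ∑ j ∈ Finset.range M, ∑ k ∈ Finset.range M, ((if j = k then (d : ℝ) else 0) - d / (2 * M)) ≤
      ∑ t, Fj M (y t) := by
    rw [h2]
    exact Finset.sum_le_sum fun j hj => Finset.sum_le_sum fun k hk => h3 j hj k hk
  have h5 : ∑ j ∈ Finset.range M, ∑ k ∈ Finset.range M, ((if j = k then (d : ℝ) else 0) - d / (2 * M)) =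
      M * d / 2 := by
    have : ∀ j ∈ Finset.range M, ∑ k ∈ Finset.range M, ((if j = k then (d : ℝ) else 0) - d / (2 * M)) =
        d / 2 := by
      intro j hj
      rw [Finset.sum_sub_distrib, Finset.sum_ite_eq, if_pos hj, Finset.sum_const, Finset.card_range,
        nsmul_eq_mul]
      field_simp
      ring
    rw [Finset.sum_congr rfl this, Finset.sum_const, Finset.card_range, nsmul_eq_mul]
    ring
  rw [h5] at h4
  have h6 := h4.trans h1
  rw [div_lt_iff₀ (by positivity)] at hM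
  have h7 : (M : ℝ) * d / 2 * ρ ^ 2 ≤ d := by
    have := mul_le_mul_of_nonneg_right h6 (show 0 ≤ ρ ^ 2 by positivity)
    have e : (d : ℝ) * (1 / ρ ^ 2) * ρ ^ 2 = d := by field_simp
    linarith
  have h8 : 2 * (d : ℝ) < M * ρ ^ 2 * d := by nlinarith
  nlinarith

/-- the squared Weyl sum -/
noncomputable def G {d : ℕ} (N : Fin d → ℕ) (m : ℕ) (x : ℝ) : ℝ :=
  ∑ s, ∑ t, cos (2 * π * (((m * N s : ℕ) : ℝ) - ((m * N t : ℕ) : ℝ)) * x)

lemma G_eq {d : ℕ} (N : Fin d → ℕ) (m : ℕ) (x : ℝ) : G N m x =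
    (∑ s, cos (2 * π * m * (N s * x))) ^ 2 + (∑ s, sin (2 * π * m * (N s * x))) ^ 2 := by
  unfold G
  rw [sq, sq, Finset.sum_mul_sum, Finset.sum_mul_sum, ← Finset.sum_add_distrib]
  refine Finset.sum_congr rfl fun s _ => ?_
  rw [← Finset.sum_add_distrib]
  refine Finset.sum_congr rfl fun t _ => ?_
  rw [← cos_sub]
  congr 1
  push_cast
  ring

lemma int_cos (a b : ℕ) : ∫ x in (0 : ℝ)..1, cos (2 * π * ((a : ℝ) - b) * x)
    = if a = b then 1 else 0 := by
  split_ifs with h
  · subst h; simp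
  · have hc : 2 * π * ((a : ℝ) - b) ≠ 0 := by
      have : (a : ℝ) - b ≠ 0 := sub_ne_zero.2 (by exact_mod_cast h)
      have := pi_pos
      positivity
    rw [intervalIntegral.integral_comp_mul_left (fun x => cos x) hc]
    simp only [integral_cos, mul_zero, mul_one, sin_zero, sub_zero, smul_eq_mul]
    have : 2 * π * ((a : ℝ) - b) = ((2 * ((a : ℤ) - b) : ℤ) : ℝ) * π := by push_cast; ring
    rw [this, sin_int_mul_pi, mul_zero]

lemma int_G {d : ℕ} (N : Fin d → ℕ) (hN : Function.Injective N) {m : ℕ} (hm : 1 ≤ m) :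
    ∫ x in (0 : ℝ)..1, G N m x = d := by
  classical
  unfold G
  rw [intervalIntegral.integral_finsetSum]
  · have : ∀ s : Fin d, ∫ x in (0 : ℝ)..1,
        ∑ t, cos (2 * π * (((m * N s : ℕ) : ℝ) - ((m * N t : ℕ) : ℝ)) * x) = 1 := by
      intro s
      rw [intervalIntegral.integral_finsetSum]
      · have e : ∀ t : Fin d, (m * N s = m * N t) ↔ s = t := by
          intro t
          rw [Nat.mul_right_inj (by omega), hN.eq_iff]
        simp only [int_cos, e]
        simp
      · intro t _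
        exact (by fun_prop : Continuous _).intervalIntegrable _ _
    rw [Finset.sum_congr rfl fun s _ => this s]
    simp
  · intro s _
    exact (by fun_prop : Continuous _).intervalIntegrable _ _

/-- the exceptional set -/
def U {d : ℕ} (N : Fin d → ℕ) (ρ : ℝ) : Set ℝ := {x | ∀ t, ρ ≤ D (N t * x)}

lemma U_meas {d : ℕ} (hd : 0 < d) (N : Fin d → ℕ) (hN : Function.Injective N) {ρ : ℝ} (hρ : 0 < ρ)
    (M : ℕ) (hM : 2 / ρ ^ 2 < M) :
    (volume.restrict (Ioc (0 : ℝ) 1)) (U N ρ) ≤ ENNReal.ofReal (4 * (M : ℝ) ^ 3 / d) := by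
  have hM0 : (0 : ℝ) < M := lt_of_le_of_lt (by positivity) hM
  have hd0 : (0 : ℝ) < d := by exact_mod_cast hd
  have hsub : U N ρ ⊆ ⋃ m ∈ (Finset.range M).filter (fun m => 1 ≤ m),
      {x | ((d : ℝ) / (2 * M)) ^ 2 ≤ G N m x} := by
    intro x hx
    obtain ⟨m, h1, h2, h3⟩ := fejer hd (fun t => N t * x) hρ M hM hx
    simp only [mem_iUnion]
    refine ⟨m, Finset.mem_filter.2 ⟨Finset.mem_range.2 h2, h1⟩, ?_⟩
    show ((d : ℝ) / (2 * M)) ^ 2 ≤ G N m x
    rw [G_eq]
    have h4 := pow_le_pow_left₀ (by positivity) h3 2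
    rw [sq_abs] at h4
    have h5 := sq_nonneg (∑ s, sin (2 * π * m * (N s * x)))
    linarith
  have hone : ∀ m ∈ (Finset.range M).filter (fun m => 1 ≤ m),
      (volume.restrict (Ioc (0 : ℝ) 1)) {x | ((d : ℝ) / (2 * M)) ^ 2 ≤ G N m x} ≤
        ENNReal.ofReal (4 * (M : ℝ) ^ 2 / d) := by
    intro m hm
    rw [Finset.mem_filter] at hm
    have hc : Continuous (G N m) := by unfold G; fun_prop
    have h := mul_meas_ge_le_integral_of_nonneg (μ := volume.restrict (Ioc (0 : ℝ) 1)) (f := G N m)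
      (Eventually.of_forall fun x => by rw [G_eq]; positivity)
      (hc.intervalIntegrable 0 1).1 (((d : ℝ) / (2 * M)) ^ 2)
    rw [← intervalIntegral.integral_of_le zero_le_one, int_G N hN hm.2] at h
    rw [← ofReal_measureReal (measure_ne_top _ _)]
    apply ENNReal.ofReal_le_ofReal
    rw [le_div_iff₀ hd0]
    have e : ((d : ℝ) / (2 * M)) ^ 2 = (d : ℝ) * d / (4 * (M : ℝ) ^ 2) := by
      field_simp
      ring
    rw [e, div_mul_eq_mul_div, div_le_iff₀ (by positivity)] at h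
    have h' : (d : ℝ) * ((volume.restrict (Ioc (0 : ℝ) 1)).real {x | ((d : ℝ) / (2 * M)) ^ 2 ≤ G N m x} * d) ≤
        d * (4 * (M : ℝ) ^ 2) := by
      rw [e]
      linarith
    exact le_of_mul_le_mul_left h' hd0
  refine (measure_mono hsub).trans ((measure_biUnion_finset_le _ _).trans ?_)
  refine (Finset.sum_le_sum hone).trans ?_
  rw [Finset.sum_const, nsmul_eq_mul]
  have hcard : (((Finset.range M).filter (fun m => 1 ≤ m)).card : ENNReal) ≤ ENNReal.ofReal M := by
    rw [ENNReal.ofReal_natCast]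
    have := Finset.card_filter_le (Finset.range M) (fun m => 1 ≤ m)
    rw [Finset.card_range] at this
    exact_mod_cast this
  refine (mul_le_mul_left hcard _).trans ?_
  rw [← ENNReal.ofReal_mul hM0.le]
  apply ENNReal.ofReal_le_ofReal
  apply le_of_eq
  ring

end Pool.Agent.H77.Per
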