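import Pool.Agent.H77.PerA

/-! # One stage of the construction (for `MP_942486_an`) -/

set_option autoImplicit false

open MeasureTheory Filter Set Real

namespace Pool.Agent.H77.Per

abbrev Ix (n d : ℕ) := Fin n × (Fin d → Bool)

noncomputable def enc (n d : ℕ) (a : Ix n d) : ℕ := (Fintype.equivFin (Ix n d) a : ℕ)

lemma enc_inj (n d : ℕ) : Function.Injective (enc n d) := by
  intro a b h
  exact (Fintype.equivFin (Ix n d)).injective (Fin.ext h)

/-- the primes of the stage -/
noncomputable def pr (n d K : ℕ) (a : Ix n d) : ℕ := Nat.nth Nat.Prime (K + enc n d a)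

lemma pr_prime (n d K : ℕ) (a : Ix n d) : (pr n d K a).Prime := Nat.prime_nth_prime _

lemma pr_ge (n d K : ℕ) (a : Ix n d) : K ≤ pr n d K a := by
  have : K + enc n d a ≤ pr n d K a :=
    (Nat.nth_strictMono Nat.infinite_setOfPred_prime).le_apply (x := K + enc n d a)
  omega

lemma pr_inj (n d K : ℕ) : Function.Injective (pr n d K) := by
  intro a b h
  have := Nat.nth_injective Nat.infinite_setOfPred_prime h
  exact enc_inj n d (by omega)

def bt (b : Bool) : ℕ := if b then 1 else 0

lemma exN (n d K : ℕ) (t : Fin d) : ∃ N : ℕ, ∀ a : Ix n d, pr n d K a ∣ N + bt (a.2 t) := by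
  classical
  obtain ⟨N, hN⟩ := Nat.chineseRemainderOfFinset (fun a : Ix n d => (pr n d K a - 1) * bt (a.2 t))
    (pr n d K) Finset.univ (fun a _ => (pr_prime n d K a).ne_zero)
    (fun a _ b _ h => (Nat.coprime_primes (pr_prime n d K a) (pr_prime n d K b)).2
      fun e => h (pr_inj n d K e))
  refine ⟨N, fun a => ?_⟩
  have h1 := (hN a (Finset.mem_univ _)).add_right (bt (a.2 t))
  have h2 : (pr n d K a - 1) * bt (a.2 t) + bt (a.2 t) = pr n d K a * bt (a.2 t) := by
    have := (pr_prime n d K a).pos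
    obtain ⟨q, hq⟩ : ∃ q, pr n d K a = q + 1 := ⟨pr n d K a - 1, by omega⟩
    rw [hq]; simp; ring
  rw [h2] at h1
  exact (Nat.modEq_zero_iff_dvd).1 (h1.trans ((Nat.modEq_zero_iff_dvd).2 (dvd_mul_right _ _)))

noncomputable def Nt (n d K : ℕ) (t : Fin d) : ℕ := (exN n d K t).choose

lemma Nt_spec (n d K : ℕ) (t : Fin d) (a : Ix n d) : pr n d K a ∣ Nt n d K t + bt (a.2 t) :=
  (exN n d K t).choose_spec a

lemma Nt_inj {n : ℕ} (hn : 0 < n) (d K : ℕ) : Function.Injective (Nt n d K) := by
  classical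
  intro s t h
  by_contra hst
  let a : Ix n d := (⟨0, hn⟩, fun u => if u = t then true else false)
  have h1 := Nt_spec n d K s a
  have h2 := Nt_spec n d K t a
  simp only [a, if_neg hst, if_true, bt] at h1 h2
  rw [h] at h1
  simp only [Bool.false_eq_true, if_false, add_zero] at h1
  have h3 : pr n d K a ∣ 1 := (Nat.dvd_add_right h1).1 h2
  exact (pr_prime n d K a).one_lt.ne' (Nat.dvd_one.1 h3)

/-- the condition on one phase -/
def St (N : ℕ) (w s ρ : ℝ) (b : Bool) : Set ℝ :=
  if b then {x | D ((N + 1 : ℝ) * x - w) ≤ s + ρ} else {x | ρ ≤ D (N * x)}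

lemma St_meas (N : ℕ) (w s ρ : ℝ) (b : Bool) : MeasurableSet (St N w s ρ b) := by
  unfold St
  have := D_cont
  split_ifs
  · exact (isClosed_le (by fun_prop) (by fun_prop)).measurableSet
  · exact (isClosed_le (by fun_prop) (by fun_prop)).measurableSet

lemma St_per (N : ℕ) (w s ρ : ℝ) (b : Bool) {q : ℕ} (hq : q ≠ 0) (hd : q ∣ N + bt b) (x : ℝ) :
    x + 1 / (q : ℝ) ∈ St N w s ρ b ↔ x ∈ St N w s ρ b := by
  obtain ⟨c, hc⟩ := hd
  have hq' : (q : ℝ) ≠ 0 := by exact_mod_cast hq
  cases b with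
  | false =>
    have hc' : (N : ℝ) = q * c := by
      have : N = q * c := by simpa [bt] using hc
      exact_mod_cast this
    have e : (N : ℝ) * (x + 1 / q) = N * x + c := by
      have : (N : ℝ) * (x + 1 / q) = N * x + N / q := by ring
      rw [this]
      congr 1
      rw [hc']
      field_simp
    simp only [St, Bool.false_eq_true, if_false, mem_ofPred_eq]
    rw [e, D_add_nat]
  | true =>
    have hc' : (N : ℝ) + 1 = q * c := by
      have : N + 1 = q * c := by simpa [bt] using hc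
      exact_mod_cast this
    have e : ((N : ℝ) + 1) * (x + 1 / q) - w = ((N : ℝ) + 1) * x - w + c := by
      have : ((N : ℝ) + 1) * (x + 1 / q) - w = ((N : ℝ) + 1) * x - w + ((N : ℝ) + 1) / q := by ring
      rw [this]
      congr 1
      rw [hc']
      field_simp
    simp only [St, if_true, mem_ofPred_eq]
    rw [e, D_add_nat]

/-- one stage -/
lemma stage (n : ℕ) (hn : 0 < n) (w v : Fin n → ℝ) (s ρ M : ℝ) (hρ : 0 < ρ) (K : ℕ) (ε : ℝ)
    (hε : 0 < ε) : ∃ (F : ℕ → ℝ → ℝ) (B : ℕ) (Ue : Set ℝ),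
    (∀ q, Measurable (F q)) ∧
    (∀ q x, F q x = -M ∨ ∃ i, F q x = v i ∧ (x ∉ Ue → D (x - w i) < s + 2 * ρ)) ∧
    (∀ (q : ℕ) x, F q (x + 1 / (q : ℝ)) = F q x) ∧
    (∀ q, B ≤ q → ∀ x, F q x = -M) ∧
    (∀ x i, D (x - w i) ≤ s → ∃ q, K ≤ q ∧ F q x = v i) ∧
    volume.restrict (Ioc (0 : ℝ) 1) Ue ≤ ENNReal.ofReal ε := by
  classical
  obtain ⟨M0, hM0⟩ := exists_nat_gt (2 / ρ ^ 2)
  have hM0' : (0 : ℝ) < M0 := lt_of_le_of_lt (by positivity) hM0
  obtain ⟨d, hd⟩ := exists_nat_gt (4 * (M0 : ℝ) ^ 3 / ε)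
  have hd0' : (0 : ℝ) < d := lt_of_le_of_lt (by positivity) hd
  have hd0 : 0 < d := by exact_mod_cast hd0'
  let S : Ix n d → Set ℝ := fun a => ⋂ t, St (Nt n d K t) (w a.1) s ρ (a.2 t)
  have Sm : ∀ a, MeasurableSet (S a) := fun a => MeasurableSet.iInter fun t => St_meas _ _ _ _ _
  have Sp : ∀ a x, x + 1 / ((pr n d K a : ℕ) : ℝ) ∈ S a ↔ x ∈ S a := by
    intro a x
    simp only [S, mem_iInter]
    refine forall_congr' fun t => St_per _ _ _ _ _ (pr_prime n d K a).ne_zero (Nt_spec n d K t a) x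
  let F : ℕ → ℝ → ℝ := fun q x => if h : ∃ a, pr n d K a = q then
    (if x ∈ S h.choose then v h.choose.1 else -M) else -M
  have Fa : ∀ a x, F (pr n d K a) x = if x ∈ S a then v a.1 else -M := by
    intro a x
    have h : ∃ b, pr n d K b = pr n d K a := ⟨a, rfl⟩
    have e : h.choose = a := pr_inj n d K h.choose_spec
    simp only [F]
    rw [dif_pos h, e]
  have Fn : ∀ q, (¬ ∃ a, pr n d K a = q) → ∀ x, F q x = -M := by
    intro q h x
    simp only [F]
    rw [dif_neg h]
  refine ⟨F, (Finset.univ.sup (pr n d K)) + 1, U (Nt n d K) ρ, ?_, ?_, ?_, ?_, ?_, ?_⟩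
  · intro q
    by_cases h : ∃ a, pr n d K a = q
    · obtain ⟨a, rfl⟩ := h
      have : F (pr n d K a) = fun x => if x ∈ S a then v a.1 else -M := funext (Fa a)
      rw [this]
      exact Measurable.ite (Sm a) measurable_const measurable_const
    · have : F q = fun _ => -M := funext (Fn q h)
      rw [this]
      exact measurable_const
  · intro q x
    by_cases h : ∃ a, pr n d K a = q
    · obtain ⟨a, rfl⟩ := h
      rw [Fa]
      by_cases hx : x ∈ S a
      · right
        refine ⟨a.1, by rw [if_pos hx], fun hU => ?_⟩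
        by_contra hcon
        rw [not_lt] at hcon
        apply hU
        intro t
        have h1 : x ∈ St (Nt n d K t) (w a.1) s ρ (a.2 t) := mem_iInter.1 hx t
        cases hb : a.2 t with
        | false =>
          rw [hb] at h1
          simpa [St] using h1
        | true =>
          rw [hb] at h1
          have h2 : D (((Nt n d K t : ℕ) + 1 : ℝ) * x - w a.1) ≤ s + ρ := by simpa [St] using h1
          have h3 := D_add (((Nt n d K t : ℕ) + 1 : ℝ) * x - w a.1) (-(((Nt n d K t : ℕ) : ℝ) * x))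
          rw [D_neg] at h3
          have e : ((Nt n d K t : ℕ) + 1 : ℝ) * x - w a.1 + -(((Nt n d K t : ℕ) : ℝ) * x) = x - w a.1 := by
            ring
          rw [e] at h3
          linarith
      · left
        rw [if_neg hx]
    · left
      exact Fn q h x
  · intro q x
    by_cases h : ∃ a, pr n d K a = q
    · obtain ⟨a, rfl⟩ := h
      rw [Fa, Fa]
      simp only [Sp a x]
    · rw [Fn q h, Fn q h]
  · intro q hq x
    apply Fn
    rintro ⟨a, rfl⟩
    have := Finset.le_sup (f := pr n d K) (Finset.mem_univ a)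
    omega
  · intro x i hx
    let a : Ix n d := (i, fun t => if ρ ≤ D (Nt n d K t * x) then false else true)
    refine ⟨pr n d K a, pr_ge n d K a, ?_⟩
    rw [Fa, if_pos]
    simp only [S, mem_iInter]
    intro t
    by_cases h : ρ ≤ D (Nt n d K t * x)
    · have : a.2 t = false := by simp [a, h]
      rw [this]
      simpa [St] using h
    · have : a.2 t = true := by simp [a, h]
      rw [this]
      have h3 := D_add (((Nt n d K t : ℕ) : ℝ) * x) (x - w i)
      have e : ((Nt n d K t : ℕ) : ℝ) * x + (x - w i) = ((Nt n d K t : ℕ) + 1 : ℝ) * x - w i := by ring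
      rw [e] at h3
      rw [not_le] at h
      have h4 : D (((Nt n d K t : ℕ) + 1 : ℝ) * x - w i) ≤ s + ρ := by linarith
      simpa [St] using h4
  · refine (U_meas hd0 _ (Nt_inj hn d K) hρ M0 hM0).trans ?_
    apply ENNReal.ofReal_le_ofReal
    rw [div_le_iff₀ hd0']
    rw [div_lt_iff₀ hε] at hd
    linarith

end Pool.Agent.H77.Per
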