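import Pool.Agent.H77.PerB

/-! # Every bounded measurable 1-periodic function is an upper limit (for `MP_942486_an`) -/

set_option autoImplicit false

open MeasureTheory Filter Set Real Topology

namespace Pool.Agent.H77.Per

/-- a 1-periodic set that is null in `(0,1]` is null -/
lemma null_of_periodic (B : Set ℝ) (hB : ∀ x, x + 1 ∈ B ↔ x ∈ B)
    (h0 : volume.restrict (Ioc (0 : ℝ) 1) B = 0) : volume B = 0 := by
  have hnat : ∀ (k : ℕ) (x : ℝ), x + k ∈ B ↔ x ∈ B := by
    intro k
    induction k with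
    | zero => intro x; simp
    | succ k ih =>
      intro x
      have : x + ((k + 1 : ℕ) : ℝ) = (x + k) + 1 := by push_cast; ring
      rw [this, hB, ih]
  have hint : ∀ (k : ℤ) (x : ℝ), x - k ∈ B ↔ x ∈ B := by
    intro k x
    obtain ⟨m, rfl | rfl⟩ := k.eq_nat_or_neg
    · have h := hnat m (x - ((m : ℤ) : ℝ))
      have e : x - ((m : ℤ) : ℝ) + m = x := by push_cast; ring
      rw [e] at h
      exact h.symm
    · have e : x - ((-(m : ℤ) : ℤ) : ℝ) = x + m := by push_cast; ring
      rw [e]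
      exact hnat m x
  have h1 : volume (B ∩ Ioc (0 : ℝ) 1) = 0 := by
    have := Measure.restrict_apply₀' (μ := volume) (s := Ioc (0 : ℝ) 1) (t := B)
      measurableSet_Ioc.nullMeasurableSet
    rw [← this]
    exact h0
  have hsub : B ⊆ ⋃ k : ℤ, (fun x : ℝ => x - k) ⁻¹' (B ∩ Ioc (0 : ℝ) 1) := by
    intro x hx
    rw [mem_iUnion]
    refine ⟨⌈x⌉ - 1, ?_, ?_⟩
    · show x - ((⌈x⌉ - 1 : ℤ) : ℝ) ∈ B
      exact (hint _ _).2 hx
    · have h2 := Int.le_ceil x
      have h3 := Int.ceil_lt_add_one x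
      show 0 < x - ((⌈x⌉ - 1 : ℤ) : ℝ) ∧ x - ((⌈x⌉ - 1 : ℤ) : ℝ) ≤ 1
      push_cast
      constructor <;> linarith
  refine measure_mono_null hsub (measure_iUnion_null fun k => ?_)
  exact (measurePreserving_sub_right volume (k : ℝ)).quasiMeasurePreserving.preimage_null h1

lemma ae_of_periodic {a b : ℝ → ℝ} (ha : ∀ x, a (x + 1) = a x) (hb : ∀ x, b (x + 1) = b x)
    (h : ∀ᵐ x ∂(volume.restrict (Ioc (0 : ℝ) 1)), a x = b x) : ∀ᵐ x : ℝ, a x = b x := by
  rw [ae_iff] at h ⊢
  refine null_of_periodic _ (fun x => ?_) h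
  show ¬ (a (x + 1) = b (x + 1)) ↔ ¬ (a x = b x)
  rw [ha, hb]

/-- truncation -/
noncomputable def cl (M y : ℝ) : ℝ := max (-M) (min M y)

lemma cl_le {M : ℝ} (hM : 0 ≤ M) (y : ℝ) : cl M y ≤ M := by
  unfold cl
  exact max_le (by linarith) (min_le_left _ _)

lemma le_cl (M y : ℝ) : -M ≤ cl M y := le_max_left _ _

lemma cl_eq {M y : ℝ} (h : |y| ≤ M) : cl M y = y := by
  unfold cl
  rw [abs_le] at h
  rw [min_eq_right h.2, max_eq_right h.1]

lemma cl_sub (M a b : ℝ) : |cl M a - cl M b| ≤ |a - b| := by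
  unfold cl
  have h1 := abs_max_sub_max_le_max (-M) (min M a) (-M) (min M b)
  have h2 := abs_min_sub_min_le_max M a M b
  rw [sub_self, abs_zero, max_eq_right (abs_nonneg (min M a - min M b))] at h1
  rw [sub_self, abs_zero, max_eq_right (abs_nonneg (a - b))] at h2
  exact h1.trans h2

/-- approximation by uniformly continuous functions -/
lemma approx (g : ℝ → ℝ) (hg : Measurable g) (M : ℝ) (hM : ∀ x, |g x| ≤ M) :
    ∃ h : ℕ → ℝ → ℝ, (∀ k, UniformContinuous (h k)) ∧
      ∀ᵐ x ∂(volume.restrict (Ioc (0 : ℝ) 1)), ∀ᶠ k in atTop, |g x - h k x| < (1 / 2) ^ k := by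
  set μ := volume.restrict (Ioc (0 : ℝ) 1) with hμ
  set G : ℝ → ℝ := (Ioc (0 : ℝ) 1).indicator g with hG
  have hint : Integrable G volume := by
    rw [hG, integrable_indicator_iff measurableSet_Ioc]
    refine Measure.integrableOn_of_bounded (M := M) (by simp) hg.aestronglyMeasurable ?_
    exact Eventually.of_forall fun x => by rw [Real.norm_eq_abs]; exact hM x
  have hex : ∀ k : ℕ, ∃ h : ℝ → ℝ, HasCompactSupport h ∧ ∫ x, ‖G x - h x‖ ≤ (1 / 4) ^ k ∧
      Continuous h ∧ Integrable h volume := fun k =>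
    hint.exists_hasCompactSupport_integral_sub_le (by positivity)
  choose h h1 h2 h3 h4 using hex
  refine ⟨h, fun k => (h1 k).uniformContinuous_of_continuous (h3 k), ?_⟩
  have hfin : ∀ᵐ x ∂volume, {k | x ∈ {x | (1 / 2 : ℝ) ^ k ≤ ‖G x - h k x‖}}.Finite := by
    apply ae_finite_setOfPred_mem
    have hb : ∀ k, volume {x | (1 / 2 : ℝ) ^ k ≤ ‖G x - h k x‖} ≤ ENNReal.ofReal ((1 / 2) ^ k) := by
      intro k
      have hi : Integrable (fun x => ‖G x - h k x‖) volume := (hint.sub (h4 k)).norm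
      have hm := mul_meas_ge_le_lintegral₀ (μ := volume)
        (f := fun x => ENNReal.ofReal ‖G x - h k x‖) hi.1.aemeasurable.ennreal_ofReal
        (ENNReal.ofReal ((1 / 2) ^ k))
      have e1 : ∫⁻ x, ENNReal.ofReal ‖G x - h k x‖ = ENNReal.ofReal (∫ x, ‖G x - h k x‖) :=
        (ofReal_integral_eq_lintegral_ofReal hi (Eventually.of_forall fun x => norm_nonneg _)).symm
      rw [e1] at hm
      have e2 : {x | ENNReal.ofReal ((1 / 2) ^ k) ≤ ENNReal.ofReal ‖G x - h k x‖} =
          {x | (1 / 2 : ℝ) ^ k ≤ ‖G x - h k x‖} := by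
        ext x
        simp only [mem_ofPred_eq]
        rw [ENNReal.ofReal_le_ofReal_iff (norm_nonneg _)]
      rw [e2] at hm
      have hm2 := hm.trans (ENNReal.ofReal_le_ofReal (h2 k))
      have e3 : ENNReal.ofReal ((1 / 4) ^ k) = ENNReal.ofReal ((1 / 2) ^ k) * ENNReal.ofReal ((1 / 2) ^ k) := by
        rw [← ENNReal.ofReal_mul (by positivity), ← mul_pow]
        norm_num
      rw [e3] at hm2
      exact (ENNReal.mul_le_mul_iff_right (by
        rw [Ne, ENNReal.ofReal_eq_zero, not_le]; positivity) ENNReal.ofReal_ne_top).1 hm2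
    refine ne_top_of_le_ne_top ?_ (ENNReal.tsum_le_tsum hb)
    rw [← ENNReal.ofReal_tsum_of_nonneg (fun k => by positivity) summable_geometric_two]
    exact ENNReal.ofReal_ne_top
  have hfin' := ae_restrict_of_ae (s := Ioc (0 : ℝ) 1) hfin
  filter_upwards [hfin', ae_restrict_mem measurableSet_Ioc] with x hx hxI
  have h5 : ∀ᶠ k in atTop, k ∉ {k | x ∈ {x | (1 / 2 : ℝ) ^ k ≤ ‖G x - h k x‖}} := by
    rw [← Nat.cofinite_eq_atTop]
    exact hx.compl_mem_cofinite
  filter_upwards [h5] with k hk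
  simp only [not_le] at hk
  have e : G x = g x := by rw [hG, indicator_of_mem hxI]
  rw [e, Real.norm_eq_abs] at hk
  exact hk

lemma D_le (y : ℝ) : D y ≤ π * |y| := by
  unfold D
  refine abs_sin_le_abs.trans (le_of_eq ?_)
  rw [abs_mul, abs_of_pos pi_pos]

lemma le_D {y : ℝ} (hy : |y| ≤ 1) : 2 * |y| ≤ D y ∨ 2 * (1 - |y|) ≤ D y := by
  have e : D y = sin (π * |y|) := by
    unfold D
    rcases le_or_gt 0 y with h | h
    · rw [abs_of_nonneg h] at hy ⊢
      apply abs_of_nonneg
      apply sin_nonneg_of_nonneg_of_le_pi (by positivity)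
      nlinarith [pi_pos]
    · rw [abs_of_neg h] at hy ⊢
      rw [mul_neg, sin_neg]
      have : 0 ≤ sin (π * (-y)) := by
        apply sin_nonneg_of_nonneg_of_le_pi
        · nlinarith [pi_pos]
        · nlinarith [pi_pos]
      rw [mul_neg, sin_neg] at this
      rw [abs_of_nonpos (by linarith)]
  rw [e]
  have h0 := abs_nonneg y
  have hp := pi_pos
  rcases le_or_gt |y| (1 / 2) with h | h
  · left
    have h1 := mul_le_sin (x := π * |y|) (by positivity) (by nlinarith)
    have h2 : 2 / π * (π * |y|) = 2 * |y| := by field_simp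
    linarith
  · right
    have h1 := mul_le_sin (x := π * (1 - |y|)) (by
      apply mul_nonneg hp.le; linarith) (by nlinarith)
    have h2 : 2 / π * (π * (1 - |y|)) = 2 * (1 - |y|) := by field_simp
    have h3 : sin (π * (1 - |y|)) = sin (π * |y|) := by
      have : π * (1 - |y|) = π - π * |y| := by ring
      rw [this, sin_pi_sub]
    linarith

theorem main (g : ℝ → ℝ) (hg : Measurable g) (M : ℝ) (hM : ∀ x, |g x| ≤ M)
    (hp : ∀ x, g (x + 1) = g x) : ∃ f : ℕ → ℝ → ℝ, (∀ n, Measurable (f n)) ∧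
      (∀ n x, |f n x| ≤ M) ∧ (∀ (n : ℕ) x, f n (x + 1 / (n : ℝ)) = f n x) ∧
      ∀ᵐ x : ℝ, limsup (fun n => f n x) atTop = g x := by
  classical
  have hM0 : 0 ≤ M := (abs_nonneg (g 0)).trans (hM 0)
  obtain ⟨h, hu, hlim⟩ := approx g hg M hM
  -- the meshes
  have hmesh : ∀ k : ℕ, ∃ n : ℕ, k + 1 ≤ n ∧ ∀ x y : ℝ, |x - y| ≤ 3 / n → |h k x - h k y| < (1 / 2) ^ k := by
    intro k
    obtain ⟨δ, hδ, hδ'⟩ := Metric.uniformContinuous_iff.1 (hu k) ((1 / 2) ^ k) (by positivity)
    obtain ⟨n, hn⟩ := exists_nat_gt (3 / δ)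
    refine ⟨max n (k + 1), le_max_right _ _, fun x y hxy => ?_⟩
    have h1 : (n : ℝ) ≤ ((max n (k + 1) : ℕ) : ℝ) := by exact_mod_cast le_max_left _ _
    have h0 : (0 : ℝ) < n := lt_of_le_of_lt (by positivity) hn
    have h2 := hδ' (a := x) (b := y) (by
      rw [Real.dist_eq]
      refine lt_of_le_of_lt hxy ?_
      rw [div_lt_iff₀ (by linarith)]
      rw [div_lt_iff₀ hδ] at hn
      nlinarith)
    rw [Real.dist_eq] at h2
    exact h2
  choose nn hnn hnn' using hmesh
  have hnn0 : ∀ k, 0 < nn k := fun k => by have := hnn k; omega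
  have hst := fun k : ℕ => stage (nn k) (hnn0 k) (fun i => (i : ℝ) / nn k)
    (fun i => cl M (h k ((i : ℝ) / nn k))) (π / nn k) (1 / nn k) M
    (by have := hnn0 k; positivity) k ((1 / 2) ^ k) (by positivity)
  choose F B Ue hF1 hF2 hF3 hF4 hF5 hF6 using hst
  have hUfin : ∀ᵐ x ∂(volume.restrict (Ioc (0 : ℝ) 1)), {k | x ∈ Ue k}.Finite := by
    apply ae_finite_setOfPred_mem
    refine ne_top_of_le_ne_top ?_ (ENNReal.tsum_le_tsum hF6)
    rw [← ENNReal.ofReal_tsum_of_nonneg (fun k => by positivity) summable_geometric_two]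
    exact ENNReal.ofReal_ne_top
  let f : ℕ → ℝ → ℝ := fun n x => (Finset.range (n + 1)).sup' Finset.nonempty_range_add_one
    fun k => F k n x
  have hFb : ∀ k n x, -M ≤ F k n x ∧ F k n x ≤ M := by
    intro k n x
    rcases hF2 k n x with h1 | ⟨i, h1, _⟩
    · rw [h1]; constructor <;> linarith
    · rw [h1]; exact ⟨le_cl _ _, cl_le hM0 _⟩
  have hfb : ∀ n x, -M ≤ f n x ∧ f n x ≤ M := by
    intro n x
    constructor
    · exact (hFb 0 n x).1.trans (Finset.le_sup' (f := fun k => F k n x) (by simp))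
    · exact Finset.sup'_le _ _ fun k _ => (hFb k n x).2
  have hper : ∀ (n : ℕ) x, f n (x + 1 / (n : ℝ)) = f n x := by
    intro n x
    simp only [f, hF3]
  have hper1 : ∀ n : ℕ, 1 ≤ n → ∀ x, f n (x + 1) = f n x := by
    intro n hn x
    have h1 : Function.Periodic (f n) (1 / (n : ℝ)) := hper n
    have h2 := h1.nat_mul n x
    have e : (n : ℝ) * (1 / n) = 1 := by
      have : (n : ℝ) ≠ 0 := by exact_mod_cast (by omega : n ≠ 0)
      field_simp
    rw [e] at h2
    exact h2
  refine ⟨f, fun n => Finset.measurable_range_sup'' fun k _ => hF1 k n, fun n x =>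
    abs_le.2 (hfb n x), hper, ?_⟩
  refine ae_of_periodic (fun x => ?_) hp ?_
  · apply limsup_congr
    filter_upwards [eventually_ge_atTop 1] with n hn
    exact hper1 n hn x
  have hne : ∀ᵐ x ∂(volume.restrict (Ioc (0 : ℝ) 1)), x ≠ 1 := by
    apply ae_restrict_of_ae
    filter_upwards [(countable_singleton (1 : ℝ)).ae_notMem volume] with x hx
    simpa using hx
  filter_upwards [hlim, hUfin, ae_restrict_mem measurableSet_Ioc, hne] with x hx1 hx2 hx3 hx4
  have hx0 : 0 < x := hx3.1
  have hx1' : x < 1 := lt_of_le_of_ne hx3.2 hx4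
  have hU : ∀ᶠ k in atTop, x ∉ Ue k := by
    rw [← Nat.cofinite_eq_atTop]
    exact hx2.compl_mem_cofinite
  have hgx := abs_le.1 (hM x)
  have hbig : ∀ᶠ k : ℕ in atTop, 3 / (nn k : ℝ) < min x (1 - x) := by
    have hm : 0 < min x (1 - x) := lt_min hx0 (by linarith)
    obtain ⟨k0, hk0⟩ := exists_nat_gt (3 / min x (1 - x))
    filter_upwards [eventually_ge_atTop k0] with k hk
    have h1 : (k0 : ℝ) ≤ nn k := by
      have := hnn k
      exact_mod_cast (by omega : k0 ≤ nn k)
    have h2 : (0 : ℝ) < nn k := by exact_mod_cast hnn0 k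
    rw [div_lt_iff₀ h2]
    rw [div_lt_iff₀ hm] at hk0
    nlinarith
  have hpow : ∀ ε : ℝ, 0 < ε → ∀ᶠ k : ℕ in atTop, 2 * (1 / 2 : ℝ) ^ k < ε := by
    intro ε hε
    have h1 : Tendsto (fun k : ℕ => 2 * (1 / 2 : ℝ) ^ k) atTop (𝓝 (2 * 0)) :=
      (tendsto_pow_atTop_nhds_zero_of_lt_one (by norm_num) (by norm_num)).const_mul 2
    rw [mul_zero] at h1
    exact h1.eventually_lt_const hε
  -- the value at a nearby centre
  have hval : ∀ k, |g x - h k x| < (1 / 2) ^ k → ∀ w : ℝ, |x - w| ≤ 3 / nn k →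
      |cl M (h k w) - g x| < 2 * (1 / 2) ^ k := by
    intro k hk w hw
    have h1 := hnn' k x w hw
    have h2 : cl M (h k w) - g x = (cl M (h k w) - cl M (h k x)) + (cl M (h k x) - cl M (g x)) := by
      rw [cl_eq (hM x)]
      ring
    rw [h2]
    refine (abs_add_le _ _).trans_lt ?_
    have h3 := cl_sub M (h k w) (h k x)
    have h4 := cl_sub M (h k x) (g x)
    rw [abs_sub_comm (h k w)] at h3
    rw [abs_sub_comm (h k x) (g x)] at h4
    linarith
  have hbdA : IsBoundedUnder (· ≤ ·) atTop (fun n => f n x) := isBoundedUnder_of ⟨M, fun n => (hfb n x).2⟩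
  have hbdB : IsBoundedUnder (· ≥ ·) atTop (fun n => f n x) := isBoundedUnder_of ⟨-M, fun n => (hfb n x).1⟩
  apply le_antisymm
  · -- upper bound
    refine le_of_forall_pos_le_add fun ε hε => ?_
    refine limsup_le_of_le hbdB.isCoboundedUnder_le ?_
    obtain ⟨k1, hk1⟩ := eventually_atTop.1 (hU.and (hx1.and (hbig.and (hpow ε hε))))
    filter_upwards [eventually_ge_atTop ((Finset.range k1).sup B)] with n hn
    refine Finset.sup'_le _ _ fun k _ => ?_
    rcases lt_or_ge k k1 with hk | hk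
    · have h1 : B k ≤ n := (Finset.le_sup (f := B) (Finset.mem_range.2 hk)).trans hn
      rw [hF4 k n h1]
      linarith [hgx.1]
    · obtain ⟨a1, a2, a3, a4⟩ := hk1 k hk
      rcases hF2 k n x with h1 | ⟨i, h1, h2⟩
      · rw [h1]; linarith [hgx.1]
      · rw [h1]
        have h3 := h2 a1
        have hn0 : (0 : ℝ) < nn k := by exact_mod_cast hnn0 k
        set w : ℝ := (i : ℝ) / nn k with hw
        have hw0 : 0 ≤ w := by positivity
        have hw1 : w < 1 := by
          rw [hw, div_lt_one hn0]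
          exact_mod_cast i.2
        have hs : π / nn k + 2 * (1 / nn k) < 6 / nn k := by
          have : π / nn k + 2 * (1 / nn k) = (π + 2) / nn k := by ring
          rw [this]
          apply div_lt_div_of_pos_right _ hn0
          have := pi_lt_four
          linarith
        have h4 : D (x - w) < 6 / nn k := h3.trans hs
        have h5 : |x - w| ≤ 1 := by rw [abs_le]; constructor <;> linarith
        have h6 : (6 : ℝ) / nn k = 2 * (3 / nn k) := by ring
        have h7 : |x - w| ≤ 3 / nn k := by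
          rcases le_D h5 with h8 | h8
          · linarith
          · exfalso
            have h9 : 1 - |x - w| < 3 / nn k := by linarith
            have h10 := h9.trans a3
            have h11 := min_le_left x (1 - x)
            have h12 := min_le_right x (1 - x)
            rcases abs_cases (x - w) with ⟨h13, _⟩ | ⟨h13, _⟩
            · rw [h13] at h10; linarith
            · rw [h13] at h10; linarith
        have h8 := (abs_lt.1 (hval k a2 w h7)).2
        linarith
  · -- lower bound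
    refine le_of_forall_pos_le_add fun ε hε => ?_
    rw [← sub_le_iff_le_add]
    refine le_limsup_of_frequently_le ?_ hbdA
    rw [frequently_atTop]
    intro m
    obtain ⟨k, hk, hkm⟩ := ((hx1.and (hpow ε hε)).and (eventually_ge_atTop m)).exists
    have hn0 : (0 : ℝ) < nn k := by exact_mod_cast hnn0 k
    have hi : ⌊x * nn k⌋₊ < nn k := by
      rw [Nat.floor_lt (by positivity)]
      nlinarith
    have h1 := Nat.floor_le (show 0 ≤ x * nn k by positivity)
    have h2 := Nat.lt_floor_add_one (x * nn k)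
    set w : ℝ := ((⟨⌊x * nn k⌋₊, hi⟩ : Fin (nn k)) : ℕ) / (nn k : ℝ) with hw
    have hxw : |x - w| ≤ 1 / nn k := by
      have e : x - w = (x * nn k - ⌊x * nn k⌋₊) / nn k := by
        rw [hw]
        field_simp
      rw [e, abs_of_nonneg (div_nonneg (by linarith) hn0.le)]
      apply div_le_div_of_nonneg_right _ hn0.le
      linarith
    have h3 : D (x - w) ≤ π / nn k := by
      refine (D_le _).trans ?_
      have := mul_le_mul_of_nonneg_left hxw pi_pos.le
      calc π * |x - w| ≤ π * (1 / nn k) := this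
        _ = π / nn k := by ring
    obtain ⟨q, hq, hq2⟩ := hF5 k x ⟨⌊x * nn k⌋₊, hi⟩ h3
    refine ⟨q, hkm.trans hq, ?_⟩
    have h4 : F k q x ≤ f q x := Finset.le_sup' (f := fun k => F k q x) (by
      rw [Finset.mem_range]; omega)
    refine le_trans ?_ h4
    rw [hq2]
    have h5 := (abs_lt.1 (hval k hk.1 w (hxw.trans (by
      apply div_le_div_of_nonneg_right _ hn0.le; norm_num)))).1
    linarith [hk.2]

end Pool.Agent.H77.Per
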